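import Pool.Agent.Helper94.AU.Tens

/-!
The cardinal argument: no directed family of projections of this shape exists.
-/

open Filter Topology Cardinal

namespace Pool.Agent.Helper6.AU

open ContinuousLinearMap Pool.Agent.Helper94.AU

/-- two points of a large set outside each other's countable set -/
theorem exists_pair {X H : Type} (hH : Cardinal.aleph 1 ≤ #H) (hX : #H < #X)
    (ξ : X → H) (C : X → Set X) (hC : ∀ x, (C x).Countable) :
    ∃ x y, ξ x = ξ y ∧ x ∉ C y ∧ y ∉ C x := by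
  have hreg : (Order.succ #H).IsRegular :=
    isRegular_succ ((aleph0_le_aleph 1).trans hH)
  obtain ⟨a, ha⟩ := infinite_pigeonhole_card ξ (Order.succ #H) (Order.succ_le_of_lt hX)
    hreg.1 (by rw [hreg.cof_ord]; exact Order.lt_succ _)
  have hbig : aleph 1 < #(ξ ⁻¹' {a}) := lt_of_le_of_lt hH (lt_of_lt_of_le (Order.lt_succ _) ha)
  obtain ⟨Y, hYsub, hY⟩ := le_mk_iff_exists_subset.mp hbig.le
  have hU : #(⋃ y : Y, C y) ≤ aleph 1 := by
    refine (mk_iUnion_le_sum_mk (f := fun y : Y => C y)).trans ?_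
    refine (sum_le_mk_mul_iSup _).trans ?_
    rw [hY]
    have h1 : (⨆ y : Y, #(C y)) ≤ ℵ₀ := ciSup_le' fun y => (hC y).le_aleph0
    calc aleph 1 * (⨆ y : Y, #(C y)) ≤ aleph 1 * aleph 1 :=
          mul_le_mul' le_rfl (h1.trans (aleph0_le_aleph 1))
      _ = aleph 1 := mul_eq_self (aleph0_le_aleph 1)
  obtain ⟨x, hx, hxU⟩ : ∃ x ∈ ξ ⁻¹' {a}, x ∉ ⋃ y : Y, C y := by
    by_contra hcon
    push Not at hcon
    exact absurd (hbig.trans_le ((mk_le_mk_of_subset hcon).trans hU)) (lt_irrefl _)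
  obtain ⟨y, hy, hyC⟩ : ∃ y ∈ Y, y ∉ C x := by
    by_contra hcon
    push Not at hcon
    have h1 : #Y ≤ ℵ₀ := (mk_le_mk_of_subset hcon).trans (hC x).le_aleph0
    rw [hY] at h1
    exact absurd h1 (not_le.mpr aleph0_lt_aleph_one)
  refine ⟨x, y, ?_, ?_, hyC⟩
  · have h1 : ξ x = a := hx
    have h2 : ξ y = a := hYsub hy
    rw [h1, h2]
  · intro h
    exact hxU (Set.mem_iUnion.mpr ⟨⟨y, hy⟩, h⟩)

theorem exists_not_mem {X H : Type} (hH : Cardinal.aleph 1 ≤ #H) (hX : #H < #X)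
    (C : Set X) (hC : C.Countable) : ∃ y, y ∉ C := by
  by_contra hcon
  push Not at hcon
  have h1 : #X ≤ ℵ₀ := by
    have h2 : C = Set.univ := Set.eq_univ_of_forall hcon
    have h3 : #C ≤ ℵ₀ := hC.le_aleph0
    rw [h2, mk_univ] at h3
    exact h3
  exact absurd (hX.trans_le h1) (not_lt.mpr ((aleph0_le_aleph 1).trans hH))

variable {E H E' : Type} [NormedAddCommGroup E] [InnerProductSpace ℂ E] [CompleteSpace E]
    [NormedAddCommGroup H] [InnerProductSpace ℂ H] [CompleteSpace H]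
    [NormedAddCommGroup E'] [InnerProductSpace ℂ E'] [CompleteSpace E']

theorem adj_unit (S : Tens E H E') {f : E} (hf : ‖f‖ = 1) (ξ : H) :
    adjoint (S.I f) (S.I f ξ) = ξ := by
  rw [S.I_apply, S.adj_I_J, inner_self_eq_norm_sq_to_K, hf]
  simp

theorem norm_I (S : Tens E H E') {f : E} (hf : ‖f‖ = 1) (ξ : H) : ‖S.I f ξ‖ = ‖ξ‖ := by
  rw [S.I_apply, S.norm_J, hf, mul_one]

omit [CompleteSpace E'] in
theorem mul_ap (A B : E' →L[ℂ] E') (v : E') : (A * B) v = A (B v) := rfl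

/-- the cardinal argument -/
theorem no_inc (V : Vecs E) (S : Tens E H E') {X : Type}
    (hH : Cardinal.aleph 1 ≤ #H) (hX : #H < #X)
    {Λ : Type} [Preorder Λ] [IsDirected Λ (· ≤ ·)]
    (r : Λ → X × X × ℕ → (E' →L[ℂ] E'))
    (mono : ∀ l m, l ≤ m → ∀ z, r m z * r l z = r l z)
    (proj : ∀ l z, r l z * r l z = r l z)
    (lim : ∀ l x, ∃ P : H →L[ℂ] H, ∃ C : Set X, C.Countable ∧ ∀ y ∉ C, ∀ n : ℕ,
      r l (x, y, n) = S.I V.g ∘L P ∘L adjoint (S.I V.g) ∧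
      r l (y, x, n) = S.I (V.f n) ∘L P ∘L adjoint (S.I (V.f n)))
    (tail : ∀ l x y, Tendsto (fun n : ℕ => r l (x, y, n) - S.E0 V.g * r l (x, y, n))
      atTop (𝓝 0))
    (big : ∀ x, ∃ l, ∃ δ : H, ∃ C : Set X, C.Countable ∧ ∀ y ∉ C,
      ‖r l (x, y, 0) (S.I V.g δ) - S.I V.g δ‖ < ‖δ‖) : False := by
  have key : ∀ x, ∃ l : Λ, ∃ ξ : H, ∃ P : H →L[ℂ] H, ∃ C : Set X, C.Countable ∧ ξ ≠ 0 ∧
      P ξ = ξ ∧ ∀ y ∉ C, ∀ n : ℕ,
      r l (x, y, n) = S.I V.g ∘L P ∘L adjoint (S.I V.g) ∧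
      r l (y, x, n) = S.I (V.f n) ∘L P ∘L adjoint (S.I (V.f n)) := by
    intro x
    obtain ⟨l, δ, C₁, hC₁, h₁⟩ := big x
    obtain ⟨P, C₂, hC₂, h₂⟩ := lim l x
    obtain ⟨y, hy⟩ := exists_not_mem hH hX (C₁ ∪ C₂) (hC₁.union hC₂)
    have hy1 : y ∉ C₁ := fun h => hy (Or.inl h)
    have hy2 : y ∉ C₂ := fun h => hy (Or.inr h)
    have e1 := (h₂ y hy2 0).1
    have b1 := h₁ y hy1
    have hne : P δ ≠ 0 := by
      intro h0
      rw [e1] at b1
      have e2 : (S.I V.g ∘L P ∘L adjoint (S.I V.g)) (S.I V.g δ) = 0 := by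
        rw [comp_apply, comp_apply, adj_unit S V.norm_g, h0, map_zero]
      rw [e2, zero_sub, norm_neg, norm_I S V.norm_g] at b1
      exact lt_irrefl _ b1
    have hPP : P (P δ) = P δ := by
      have p1 := proj l (x, y, 0)
      rw [e1] at p1
      have p2 := congrArg (fun T : E' →L[ℂ] E' => adjoint (S.I V.g) (T (S.I V.g δ))) p1
      simpa only [mul_ap, comp_apply, adj_unit S V.norm_g] using p2
    exact ⟨l, P δ, P, C₂, hC₂, hne, hPP, h₂⟩
  choose l ξ P C hC hξ hPξ hr using key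
  obtain ⟨x, y, hxy, hx, hy⟩ := exists_pair hH hX ξ C hC
  obtain ⟨m, hm1, hm2⟩ := exists_ge_ge (l x) (l y)
  have fix1 : ∀ n, r m (x, y, n) (S.I V.g (ξ x)) = S.I V.g (ξ x) := by
    intro n
    have h1 := congrArg (fun T : E' →L[ℂ] E' => T (S.I V.g (ξ x))) (mono (l x) m hm1 (x, y, n))
    rw [(hr x y hy n).1] at h1
    simpa only [mul_ap, comp_apply, adj_unit S V.norm_g, hPξ] using h1
  have fix2 : ∀ n, r m (x, y, n) (S.I (V.f n) (ξ x)) = S.I (V.f n) (ξ x) := by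
    intro n
    have h1 := congrArg (fun T : E' →L[ℂ] E' => T (S.I (V.f n) (ξ y)))
      (mono (l y) m hm2 (x, y, n))
    rw [(hr y x hx n).2] at h1
    rw [hxy]
    simpa only [mul_ap, comp_apply, adj_unit S (V.norm_f n), hPξ] using h1
  have fix3 : ∀ n, r m (x, y, n) (S.I V.h (ξ x)) = S.I V.h (ξ x) := by
    intro n
    have hI : S.I (V.f n) (ξ x) = V.c n • S.I V.g (ξ x) + V.s n • S.I V.h (ξ x) := by
      rw [S.I_apply, V.f_eq, map_add, map_smul, map_smul, S.I_apply, S.I_apply]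
    have h1 := fix2 n
    rw [hI, map_add, map_smul, map_smul, fix1 n] at h1
    exact smul_right_injective _ (V.s_ne n) (add_left_cancel h1)
  have hval : ∀ n, (r m (x, y, n) - S.E0 V.g * r m (x, y, n) :
      E' →L[ℂ] E') (S.I V.h (ξ x)) = S.I V.h (ξ x) := by
    intro n
    rw [sub_apply, mul_ap, fix3 n]
    have h1 : adjoint (S.I V.g) (S.I V.h (ξ x)) = 0 := by
      rw [S.I_apply, S.adj_I_J, V.inner_gh, zero_smul]
    rw [Tens.E0, comp_apply, h1, map_zero, sub_zero]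
  have t1 := (tail m x y).norm
  rw [norm_zero] at t1
  have hpos : 0 < ‖S.I V.h (ξ x)‖ := by
    rw [norm_I S V.norm_h]
    exact norm_pos_iff.mpr (hξ x)
  have t2 : ∀ᶠ n : ℕ in atTop, ‖r m (x, y, n) - S.E0 V.g * r m (x, y, n)‖ < 1 :=
    t1.eventually (gt_mem_nhds one_pos)
  obtain ⟨n, hn⟩ := t2.exists
  have h3 := (r m (x, y, n) - S.E0 V.g * r m (x, y, n)).le_opNorm (S.I V.h (ξ x))
  rw [hval n] at h3
  nlinarith

end Pool.Agent.Helper6.AU
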