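import Mathlib

/-!
# The Hamel dimension of an infinite dimensional Hilbert space is its cardinality
-/

namespace Pool.Agent.Helper6.AU

open Cardinal

/-- geometric sequences are linearly independent -/
theorem linInd_geom : LinearIndependent ℂ (fun (t : ℂ) (n : ℕ) => t ^ n) := by
  have h := linearIndependent_monoidHom (Multiplicative ℕ) ℂ
  have h2 : Function.Injective (fun t : ℂ => (powersHom ℂ t : Multiplicative ℕ →* ℂ)) :=
    (powersHom ℂ).injective
  have h3 := h.comp _ h2
  have h4 : LinearIndependent ℂ (fun (t : ℂ) (n : Multiplicative ℕ) => (powersHom ℂ t) n) := h3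
  exact h4

theorem continuum_le_rank (H : Type) [NormedAddCommGroup H] [InnerProductSpace ℂ H]
    [CompleteSpace H] (h : ¬ FiniteDimensional ℂ H) : continuum ≤ Module.rank ℂ H := by
  obtain ⟨w, b, hb⟩ := exists_hilbertBasis ℂ H
  have hinf : Infinite w := by
    by_contra hcon
    rw [not_infinite_iff_finite] at hcon
    apply h
    have : Fintype w := Fintype.ofFinite w
    exact (b.toOrthonormalBasis.toBasis).finiteDimensional_of_finite
  let f : ℕ ↪ w := Infinite.natEmbedding w
  let e : ℕ → H := fun n => b (f n)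
  have he : Orthonormal ℂ e := b.orthonormal.comp f f.injective
  -- the vectors
  have hsum : ∀ t : Set.Ioo (0 : ℝ) 1, Summable (fun n : ℕ => ((t : ℝ) : ℂ) ^ n • e n) := by
    intro t
    apply Summable.of_norm
    have : (fun n : ℕ => ‖((t : ℝ) : ℂ) ^ n • e n‖) = fun n : ℕ => (t : ℝ) ^ n := by
      funext n
      rw [norm_smul, he.1 n, mul_one, norm_pow, Complex.norm_real, Real.norm_of_nonneg t.2.1.le]
    rw [this]
    exact summable_geometric_of_lt_one t.2.1.le t.2.2
  let v : Set.Ioo (0 : ℝ) 1 → H := fun t => ∑' n : ℕ, ((t : ℝ) : ℂ) ^ n • e n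
  let T : H →ₗ[ℂ] (ℕ → ℂ) := LinearMap.pi (fun n => (innerSL ℂ (e n)).toLinearMap)
  have hT : ∀ t, T (v t) = fun n : ℕ => (((t : ℝ) : ℂ)) ^ n := by
    intro t
    funext n
    change (innerSL ℂ (e n)) (v t) = _
    have h1 : (innerSL ℂ (e n)) (v t) = ∑' k : ℕ, (innerSL ℂ (e n)) (((t : ℝ) : ℂ) ^ k • e k) :=
      (innerSL ℂ (e n)).map_tsum (hsum t)
    rw [h1, tsum_eq_single n]
    · rw [map_smul, innerSL_apply_apply, inner_self_eq_norm_sq_to_K, he.1 n]
      simp
    · intro k hk
      rw [map_smul, innerSL_apply_apply, he.2 (Ne.symm hk), smul_zero]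
  have hlin : LinearIndependent ℂ v := by
    apply LinearIndependent.of_comp T
    have h5 : (T ∘ v) = (fun (t : ℂ) (n : ℕ) => t ^ n) ∘ (fun t : Set.Ioo (0 : ℝ) 1 => ((t : ℝ) : ℂ)) := by
      funext t
      exact hT t
    rw [h5]
    apply linInd_geom.comp
    intro s t hst
    have h7 : ((s : ℝ) : ℂ) = ((t : ℝ) : ℂ) := hst
    have : (s : ℝ) = t := by exact_mod_cast h7
    exact Subtype.ext this
  have h6 := hlin.cardinal_le_rank
  rwa [Cardinal.mk_Ioo_real (show (0 : ℝ) < 1 by norm_num)] at h6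

theorem rank_eq_card (H : Type) [NormedAddCommGroup H] [InnerProductSpace ℂ H] [CompleteSpace H]
    (h : ¬ FiniteDimensional ℂ H) : Module.rank ℂ H = Cardinal.mk H := by
  have hc := continuum_le_rank H h
  let B := Module.Free.chooseBasis ℂ H
  have h1 : Module.rank ℂ H = #(Module.Free.ChooseBasisIndex ℂ H) :=
    Module.Free.rank_eq_card_chooseBasisIndex ℂ H
  have hinf : Infinite (Module.Free.ChooseBasisIndex ℂ H) := by
    rw [Cardinal.infinite_iff, ← h1]
    exact aleph0_le_continuum.trans hc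
  have h2 : #H = #(Module.Free.ChooseBasisIndex ℂ H →₀ ℂ) := Cardinal.mk_congr B.repr.toEquiv
  rw [h2, Cardinal.mk_finsupp_of_infinite, ← h1, Cardinal.mk_complex]
  exact (max_eq_left hc).symm

end Pool.Agent.Helper6.AU
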